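import Pool.Agent.H66.IQ.TD

/-!
# The sum of the products (copy of `Pool/Agent/H84/IP/RSM.lean` of helper84)
-/

set_option autoImplicit false

namespace Pool.Agent.H39.IQ

open Finset Pool.Agent.H6.NB Pool.Agent.H66.IQ
open Pool.Agent.H66.IP (smx gw T_SMA)

private theorem rsm_own0 (hMSS : T_MSS) (V : Type) [Fintype V] [DecidableEq V] (β : ℝ) (t : Tr V)
    (y : V → Bool) (hβ : 0 < β) (x z : V) : 0 ≤ t.own β x z y := by
  have h : ∀ (w : V) (y' : V → Bool), 0 ≤ t.ms β w y' := fun w y' => ((hMSS V β t y' hβ).1 w).1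
  unfold Tr.own
  exact add_nonneg (mul_nonneg (h _ _) (add_nonneg (h _ _) (h _ _)))
    (mul_nonneg (h _ _) (add_nonneg (h _ _) (h _ _)))

private theorem rsm_half (V : Type) [Fintype V] (a : V → ℝ) (b : V → V → ℝ) (w : ℝ)
    (ha : ∀ x, 0 ≤ a x) (hs : ∑ x, a x ≤ w) (hb : ∀ x, ∑ z, b x z ≤ 2 * w) (hw : 0 ≤ w) :
    ∑ x, ∑ z, a x * b x z ≤ 2 * w ^ 2 := by
  calc ∑ x, ∑ z, a x * b x z = ∑ x, a x * ∑ z, b x z := by
        refine Finset.sum_congr rfl fun x _ => ?_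
        rw [Finset.mul_sum]
    _ ≤ ∑ x, a x * (2 * w) := Finset.sum_le_sum fun x _ => mul_le_mul_of_nonneg_left (hb x) (ha x)
    _ = (∑ x, a x) * (2 * w) := by rw [Finset.sum_mul]
    _ ≤ w * (2 * w) := mul_le_mul_of_nonneg_right hs (by linarith)
    _ = 2 * w ^ 2 := by ring

private theorem rsm_own1 (hMSS : T_MSS) (V : Type) [Fintype V] [DecidableEq V] (β : ℝ) (t : Tr V)
    (y : V → Bool) (hβ : 0 < β) : ∑ x, ∑ z, t.own β x z y ≤ 4 * (t.wd : ℝ) ^ 2 := by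
  have h : ∀ (w : V) (y' : V → Bool), 0 ≤ t.ms β w y' := fun w y' => ((hMSS V β t y' hβ).1 w).1
  have hs : ∀ (y' : V → Bool), ∑ x, t.ms β x y' ≤ t.wd := fun y' => (hMSS V β t y' hβ).2
  have hw : (0 : ℝ) ≤ t.wd := Nat.cast_nonneg _
  have e : ∑ x, ∑ z, t.own β x z y =
      (∑ x, ∑ z, t.ms β x y * (t.ms β z y + t.ms β z (Function.update y x (!y x)))) +
      ∑ x, ∑ z, t.ms β z y * (t.ms β x y + t.ms β x (Function.update y z (!y z))) := by
    rw [← Finset.sum_add_distrib]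
    refine Finset.sum_congr rfl fun x _ => ?_
    rw [← Finset.sum_add_distrib]
    rfl
  have e' : ∑ x, ∑ z, t.ms β z y * (t.ms β x y + t.ms β x (Function.update y z (!y z))) =
      ∑ z, ∑ x, t.ms β z y * (t.ms β x y + t.ms β x (Function.update y z (!y z))) :=
    Finset.sum_comm
  have h1 : ∀ x, ∑ z, (t.ms β z y + t.ms β z (Function.update y x (!y x))) ≤ 2 * (t.wd : ℝ) := by
    intro x
    rw [Finset.sum_add_distrib]
    linarith [hs y, hs (Function.update y x (!y x))]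
  have h2 := rsm_half V (fun x => t.ms β x y)
    (fun x z => t.ms β z y + t.ms β z (Function.update y x (!y x))) t.wd (fun x => h x y) (hs y) h1 hw
  rw [e, e']
  linarith

private theorem rsm_rr0 (hSMA : T_SMA) (hMSS : T_MSS) (V : Type) [Fintype V] [DecidableEq V] (β : ℝ)
    (hβ : 0 < β) (x z : V) (y : V → Bool) (t : Tr V) : 0 ≤ t.rr β x z y := by
  induction t with
  | lf a => exact rsm_own0 hMSS V β (Tr.lf a) y hβ x z
  | av l r hl hr =>
    have h0 := rsm_own0 hMSS V β (Tr.av l r) y hβ x z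
    show 0 ≤ (Tr.av l r).own β x z y + (l.rr β x z y + r.rr β x z y) / 2
    linarith
  | ch l r hl hr =>
    have h0 := rsm_own0 hMSS V β (Tr.ch l r) y hβ x z
    show 0 ≤ (Tr.ch l r).own β x z y + (gw β (l.sv β y) (r.sv β y) * l.rr β x z y +
      gw β (r.sv β y) (l.sv β y) * r.rr β x z y)
    have g1 := (hSMA β hβ (l.sv β y) (r.sv β y)).2.1.1
    have g2 := (hSMA β hβ (r.sv β y) (l.sv β y)).2.1.1
    have := mul_nonneg g1.le hl
    have := mul_nonneg g2.le hr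
    linarith

private theorem rsm_own2 (hSMA : T_SMA) (hMSS : T_MSS) (V : Type) [Fintype V] [DecidableEq V] (β : ℝ)
    (hβ : 0 < β) (x z : V) (y : V → Bool) (t : Tr V) : t.own β x z y ≤ t.rr β x z y := by
  cases t with
  | lf a => exact le_refl _
  | av l r =>
    show (Tr.av l r).own β x z y ≤ (Tr.av l r).own β x z y + (l.rr β x z y + r.rr β x z y) / 2
    have h1 := rsm_rr0 hSMA hMSS V β hβ x z y l
    have h2 := rsm_rr0 hSMA hMSS V β hβ x z y r
    linarith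
  | ch l r =>
    show (Tr.ch l r).own β x z y ≤ (Tr.ch l r).own β x z y +
      (gw β (l.sv β y) (r.sv β y) * l.rr β x z y + gw β (r.sv β y) (l.sv β y) * r.rr β x z y)
    have g1 := (hSMA β hβ (l.sv β y) (r.sv β y)).2.1.1
    have g2 := (hSMA β hβ (r.sv β y) (l.sv β y)).2.1.1
    have := mul_nonneg g1.le (rsm_rr0 hSMA hMSS V β hβ x z y l)
    have := mul_nonneg g2.le (rsm_rr0 hSMA hMSS V β hβ x z y r)
    linarith

private theorem rsm_mono (p q : ℕ) (a b : ℕ) (h : p ≤ q) (h' : a ≤ b) :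
    ((p : ℝ) + 1) * (4 * (a : ℝ) ^ 2) ≤ ((q : ℝ) + 1) * (4 * (b : ℝ) ^ 2) := by
  have h1 : (p : ℝ) ≤ q := by exact_mod_cast h
  have h2 : (a : ℝ) ≤ b := by exact_mod_cast h'
  have h3 : (0 : ℝ) ≤ a := Nat.cast_nonneg _
  have h4 : (0 : ℝ) ≤ p := Nat.cast_nonneg _
  have h5 : (a : ℝ) ^ 2 ≤ (b : ℝ) ^ 2 := pow_le_pow_left₀ h3 h2 2
  exact mul_le_mul (by linarith) (by linarith) (by positivity) (by linarith)

private theorem rsm_sum (hSMA : T_SMA) (hMSS : T_MSS) (V : Type) [Fintype V] [DecidableEq V] (β : ℝ)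
    (hβ : 0 < β) (y : V → Bool) (t : Tr V) :
    ∑ x, ∑ z, t.rr β x z y ≤ (t.dp + 1) * (4 * (t.wd : ℝ) ^ 2) := by
  induction t with
  | lf a =>
    have h := rsm_own1 hMSS V β (Tr.lf a) y hβ
    have e : ((Tr.lf a).dp : ℝ) = 0 := by simp [Tr.dp]
    rw [e]
    have e2 : ∑ x, ∑ z, (Tr.lf a).rr β x z y = ∑ x, ∑ z, (Tr.lf a).own β x z y := rfl
    rw [e2]
    linarith
  | av l r hl hr =>
    have h := rsm_own1 hMSS V β (Tr.av l r) y hβ
    have e : ∑ x, ∑ z, (Tr.av l r).rr β x z y = (∑ x, ∑ z, (Tr.av l r).own β x z y) +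
        ((∑ x, ∑ z, l.rr β x z y) + ∑ x, ∑ z, r.rr β x z y) / 2 := by
      rw [← Finset.sum_add_distrib, Finset.sum_div, ← Finset.sum_add_distrib]
      refine Finset.sum_congr rfl fun x _ => ?_
      rw [← Finset.sum_add_distrib, Finset.sum_div, ← Finset.sum_add_distrib]
      rfl
    have h1 := rsm_mono l.dp (max l.dp r.dp) l.wd (max l.wd r.wd) (le_max_left _ _) (le_max_left _ _)
    have h2 := rsm_mono r.dp (max l.dp r.dp) r.wd (max l.wd r.wd) (le_max_right _ _)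
      (le_max_right _ _)
    have e1 : (Tr.av l r).dp = max l.dp r.dp + 1 := rfl
    have e2 : (Tr.av l r).wd = max l.wd r.wd := rfl
    rw [e]
    rw [e2] at h
    rw [e1, e2]
    push_cast at h h1 h2 hl hr ⊢
    linarith
  | ch l r hl hr =>
    have h := rsm_own1 hMSS V β (Tr.ch l r) y hβ
    have e : ∑ x, ∑ z, (Tr.ch l r).rr β x z y = (∑ x, ∑ z, (Tr.ch l r).own β x z y) +
        (gw β (l.sv β y) (r.sv β y) * (∑ x, ∑ z, l.rr β x z y) +
          gw β (r.sv β y) (l.sv β y) * ∑ x, ∑ z, r.rr β x z y) := by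
      rw [Finset.mul_sum, Finset.mul_sum, ← Finset.sum_add_distrib, ← Finset.sum_add_distrib]
      refine Finset.sum_congr rfl fun x _ => ?_
      rw [Finset.mul_sum, Finset.mul_sum, ← Finset.sum_add_distrib, ← Finset.sum_add_distrib]
      rfl
    have h1 := rsm_mono l.dp (max l.dp r.dp) l.wd (max l.wd r.wd) (le_max_left _ _) (le_max_left _ _)
    have h2 := rsm_mono r.dp (max l.dp r.dp) r.wd (max l.wd r.wd) (le_max_right _ _)
      (le_max_right _ _)
    have e1 : (Tr.ch l r).dp = max l.dp r.dp + 1 := rfl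
    have e2 : (Tr.ch l r).wd = max l.wd r.wd := rfl
    have g1 := (hSMA β hβ (l.sv β y) (r.sv β y)).2.1.1
    have g2 := (hSMA β hβ (r.sv β y) (l.sv β y)).2.1.1
    have g3 := (hSMA β hβ (l.sv β y) (r.sv β y)).2.1.2.2
    have k1 := mul_le_mul_of_nonneg_left (hl.trans h1) g1.le
    have k2 := mul_le_mul_of_nonneg_left (hr.trans h2) g2.le
    have k3 : gw β (l.sv β y) (r.sv β y) * ((((max l.dp r.dp : ℕ) : ℝ) + 1) *
        (4 * (((max l.wd r.wd : ℕ) : ℝ)) ^ 2)) + gw β (r.sv β y) (l.sv β y) *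
        ((((max l.dp r.dp : ℕ) : ℝ) + 1) * (4 * (((max l.wd r.wd : ℕ) : ℝ)) ^ 2)) =
        ((((max l.dp r.dp : ℕ) : ℝ) + 1) * (4 * (((max l.wd r.wd : ℕ) : ℝ)) ^ 2)) := by
      rw [← add_mul, g3, one_mul]
    rw [e]
    rw [e2] at h
    rw [e1, e2, Nat.cast_add, Nat.cast_one]
    linarith

theorem pf_RSM (hSMA : Pool.Agent.H66.IP.T_SMA) (hMSS : T_MSS) : T_RSM := fun V _ _ β t y hβ =>
  ⟨fun x z => ⟨rsm_own0 hMSS V β t y hβ x z, rsm_own2 hSMA hMSS V β hβ x z y t⟩,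
    rsm_sum hSMA hMSS V β hβ y t⟩

end Pool.Agent.H39.IQ
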